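import Pool.Agent.H37.CNS.Stmts

/-! # Row TAC of the board cns: no tame covers of the affine line -/

set_option autoImplicit false

namespace Pool.CND

open Finset Polynomial

namespace TACAux

section

variable {k L : Type} [Field k] [Field L] [Algebra k L]

theorem ge_poly (P : Place k L) (t : L) (ht : 0 ≤ P.ord t) (q : k[X]) :
    P.Ge (aeval t q) 0 := by
  induction q using Polynomial.induction_on with
  | C a => rw [aeval_C]; exact P.ge_const a
  | add q r hq hr => rw [map_add]; exact P.ge_add hq hr
  | monomial n a _ =>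
    rw [map_mul, aeval_C, map_pow, aeval_X]
    have h1 : P.Ge (t ^ (n + 1)) 0 := by
      by_cases h : t = 0
      · exact Or.inl (by rw [h, zero_pow (Nat.succ_ne_zero n)])
      · exact Or.inr (by rw [P.ord_pow h]; positivity)
    have h2 := P.ge_mul (P.ge_const a) h1
    rwa [add_zero] at h2

/-- the order of a polynomial in `t` at infinity -/
theorem ord_poly {P : Place k L} {t : L} (ht : P.ord t < 0) (h0 : t ≠ 0) :
    ∀ (n : ℕ) (q : k[X]), q.natDegree = n → q ≠ 0 →
      aeval t q ≠ 0 ∧ P.ord (aeval t q) = n * P.ord t := by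
  intro n
  induction n with
  | zero =>
    intro q hq hq0
    obtain ⟨c, rfl⟩ := Polynomial.natDegree_eq_zero.1 hq
    have hc : c ≠ 0 := by
      rintro rfl
      exact hq0 (map_zero _)
    rw [aeval_C]
    refine ⟨?_, by rw [P.ord_const c hc]; simp⟩
    simpa using hc
  | succ n ih =>
    intro q hq hq0
    have hd : q.divX.natDegree = n := by
      rw [Polynomial.natDegree_divX_eq_natDegree_tsub_one, hq]
      rfl
    have hd0 : q.divX ≠ 0 := by
      intro h
      rw [Polynomial.divX_eq_zero_iff] at h
      rw [h, natDegree_C] at hq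
      exact Nat.succ_ne_zero n hq.symm
    obtain ⟨h1, h2⟩ := ih q.divX hd hd0
    have e : aeval t q = aeval t q.divX * t + algebraMap k L (q.coeff 0) := by
      conv_lhs => rw [← Polynomial.divX_mul_X_add q]
      rw [map_add, map_mul, aeval_X, aeval_C]
    have h3 : P.ord (aeval t q.divX * t) = ((n : ℤ) + 1) * P.ord t := by
      rw [P.ord_mul _ _ h1 h0, h2]
      ring
    have h4 := P.ord_add_of_lt (x := aeval t q.divX * t) (y := algebraMap k L (q.coeff 0))
      (mul_ne_zero h1 h0) (P.ge_mono (P.ge_const _) (by rw [h3]; nlinarith))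
    rw [e]
    refine ⟨h4.1, ?_⟩
    rw [h4.2, h3]
    push_cast
    ring

theorem iter_aeval (D : Derivation k L L) {t : L} (hD : D t = 1) (q : k[X]) (n : ℕ) :
    (⇑D)^[n] (aeval t q) = aeval t (derivative^[n] q) := by
  induction n with
  | zero => rfl
  | succ n ih =>
    rw [Function.iterate_succ_apply', ih, Derivation.map_aeval, hD,
      Function.iterate_succ_apply', smul_eq_mul, mul_one]

/-- integration of a polynomial with `q ^ (p - 1) = 0` (derivative) -/
theorem integrate {p : ℕ} (hp : p.Prime) (hk : CharP k p) (q : k[X])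
    (hq : derivative^[p - 1] q = 0) :
    ∃ r : k[X], derivative r = q ∧ (q = 0 → r = 0) ∧ r.natDegree ≤ q.natDegree + 1 := by
  have hcoef : ∀ j : ℕ, ((j : k) + 1) = 0 → q.coeff j = 0 := by
    intro j hj
    have h1 : p ∣ j + 1 := by
      rw [← CharP.cast_eq_zero_iff k p]
      push_cast
      exact hj
    have hp2 := hp.two_le
    have h2 : j % p = p - 1 := by
      obtain ⟨s, hs⟩ := h1
      have hs0 : s ≠ 0 := by
        rintro rfl
        omega
      obtain ⟨s', rfl⟩ := Nat.exists_eq_succ_of_ne_zero hs0
      have : j = p * s' + (p - 1) := by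
        rw [Nat.succ_eq_add_one, mul_add, mul_one] at hs
        omega
      rw [this, Nat.mul_add_mod]
      exact Nat.mod_eq_of_lt (by omega)
    have h3 : p - 1 ≤ j := by
      have := Nat.mod_le j p
      omega
    have h4 : (derivative^[p - 1] q).coeff (j - (p - 1)) = 0 := by rw [hq, coeff_zero]
    rw [Polynomial.coeff_iterate_derivative, Nat.sub_add_cancel h3, nsmul_eq_mul] at h4
    rcases mul_eq_zero.1 h4 with h5 | h5
    · exfalso
      rw [CharP.cast_eq_zero_iff k p, Nat.descFactorial_eq_factorial_mul_choose] at h5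
      rcases (Nat.Prime.dvd_mul hp).1 h5 with h6 | h6
      · rw [hp.dvd_factorial] at h6
        omega
      · have : Fact p.Prime := ⟨hp⟩
        have h7 := Choose.choose_modEq_choose_mod_mul_choose_div_nat (p := p) (n := j) (k := p - 1)
        rw [h2, Nat.mod_eq_of_lt (by omega : p - 1 < p), Nat.div_eq_of_lt (by omega : p - 1 < p),
          Nat.choose_self, Nat.choose_zero_right, one_mul] at h7
        have h8 := (Nat.modEq_zero_iff_dvd.2 h6).symm.trans h7
        have h9 := (Nat.modEq_zero_iff_dvd.1 h8.symm)
        have := Nat.le_of_dvd one_pos h9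
        omega
    · exact h5
  refine ⟨∑ j ∈ range (q.natDegree + 1), monomial (j + 1) (q.coeff j * ((j : k) + 1)⁻¹), ?_, ?_, ?_⟩
  · rw [derivative_sum]
    conv_rhs => rw [q.as_sum_range]
    apply Finset.sum_congr rfl
    intro j _
    rw [derivative_monomial, Nat.add_sub_cancel]
    congr 1
    push_cast
    by_cases h : (j : k) + 1 = 0
    · rw [hcoef j h, h]
      simp
    · rw [mul_assoc, inv_mul_cancel₀ h, mul_one]
  · intro h
    apply Finset.sum_eq_zero
    intro j _
    rw [h]
    simp
  · refine Polynomial.natDegree_sum_le_of_forall_le _ _ fun j hj => ?_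
    refine (Polynomial.natDegree_monomial_le _).trans ?_
    rw [Finset.mem_range] at hj
    omega

end

end TACAux

theorem tac_thm (hDER : S_DER) (hDES : S_DES) (hFUN : S_FUN) (hINF : S_INF) (hREG : S_REG)
    (hFRC : S_FRC) (hTRV : S_TRV) (hWLD : S_WLD) : S_TAC := by
  intro p k L G _ _ _ _ _ _ ρ t P hp hk hc ht hram
  have hp2 := hp.two_le
  have ht0 : t ≠ 0 := by
    intro h
    apply hc.trans
    rw [h]
    exact isAlgebraic_zero
  have hinj : ∀ q : k[X], aeval t q = 0 → q = 0 := by
    intro q hq
    by_contra h
    exact hc.trans ⟨q, h, hq⟩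
  -- the order of `t`
  obtain ⟨W, I, hW, hI, -, -, m, hm, hcard⟩ := hWLD p k L G P ρ hp hk hc.inj
  have hW1 : Nat.card W = 1 := by
    have : W = ⊥ := by
      apply SetLike.coe_injective
      rw [hW, hram]
      rfl
    rw [this]
    simp
  rw [hW1, mul_one] at hcard
  have hord := hINF k L G ρ t P I hc ht hI
  rw [hcard] at hord
  have hm0 : 0 < m := by
    have : P.ord t < 0 := ht
    omega
  -- transitivity
  have htr : ∀ P' : Place k L, P'.ord t < 0 → ∃ c : G, ∀ z : L, z ≠ 0 → P'.ord z = P.ord (ρ c z) := by
    intro P' ht'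
    obtain ⟨c, -, h⟩ := hTRV k L G ρ ⊤ P P' (by
      intro z hz hfix hz0
      have h1 : z ∈ IntermediateField.adjoin k {t} :=
        (hc.fixed z).1 fun g => hfix g (Subgroup.mem_top g)
      rw [IntermediateField.mem_adjoin_simple_iff] at h1
      obtain ⟨r, s, rfl⟩ := h1
      have hr : r ≠ 0 := by
        rintro rfl
        exact hz (by simp)
      have hs : s ≠ 0 := by
        rintro rfl
        exact hz (by simp)
      obtain ⟨a1, a2⟩ := TACAux.ord_poly ht ht0 _ r rfl hr
      obtain ⟨b1, b2⟩ := TACAux.ord_poly ht ht0 _ s rfl hs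
      obtain ⟨-, c2⟩ := TACAux.ord_poly ht' ht0 _ r rfl hr
      obtain ⟨-, d2⟩ := TACAux.ord_poly ht' ht0 _ s rfl hs
      rw [P.ord_div a1 b1, a2, b2] at hz0
      rw [P'.ord_div a1 b1, c2, d2]
      have h2 : ((r.natDegree : ℤ) - s.natDegree) * P.ord t = 0 := by linear_combination hz0
      rcases mul_eq_zero.1 h2 with h3 | h3
      · linear_combination P'.ord t * h3
      · exact absurd h3 ht.ne)
    exact ⟨c, h⟩
  have hfix : ∀ g : G, ρ g t = t := fun g => (hc.fixed t).2
    (IntermediateField.mem_adjoin_simple_self k t) g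
  have hordt : ∀ P' : Place k L, P'.ord t < 0 → P'.ord t = -(m : ℤ) := by
    intro P' ht'
    obtain ⟨c, h⟩ := htr P' ht'
    rw [h t ht0, hfix c, hord]
  obtain ⟨D, hDt, hDker, hDp⟩ := hDER p k L G ρ t hp hk hc
  -- the claim
  have key : ∀ (N : ℕ) (y : L), Reg k t y → (∀ P' : Place k L, P'.ord t < 0 → P'.Ge y (-(N : ℤ))) →
      ∃ q : k[X], y = aeval t q := by
    intro N
    induction N using Nat.strong_induction_on with
    | _ N ih =>
      intro y hy hinf
      rcases Nat.eq_zero_or_pos N with hN | hN
      · subst hN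
        obtain ⟨c, hcc⟩ := hREG k L G ρ t y hc (by
          intro P'
          rcases lt_or_ge (P'.ord t) 0 with h | h
          · exact (by simpa using hinf P' h : P'.Ge y 0)
          · exact hy P' h)
        exact ⟨C c, by rw [aeval_C]; exact hcc⟩
      · have hD1 : Reg k t (D y) := by
          intro P' hP'
          by_cases hy0 : y = 0
          · exact Or.inl (by rw [hy0, map_zero])
          · obtain ⟨a, ha⟩ := hFUN k L G ρ t P' hc hP'
            exact (hDES p k L G ρ t D P' hp hk hc hDt).1 a ha y hy0 ((hy P' hP').resolve_left hy0)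
        have hD2 : ∀ P' : Place k L, P'.ord t < 0 → P'.Ge (D y) (-(N : ℤ) + m) := by
          intro P' hP'
          by_cases hy0 : y = 0
          · exact Or.inl (by rw [hy0, map_zero])
          · have h1 := (hinf P' hP').resolve_left hy0
            have h2 := hordt P' hP'
            rcases (hDES p k L G ρ t D P' hp hk hc hDt).2 (by
              rw [h2, dvd_neg]
              exact_mod_cast hm) y hy0 with h3 | h3
            · exact Or.inl h3
            · exact Or.inr (by omega)
        have hq1 : ∃ q1 : k[X], D y = aeval t q1 := by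
          rcases lt_or_ge N m with hNm | hNm
          · obtain ⟨c, hcc⟩ := hREG k L G ρ t (D y) hc (by
              intro P'
              rcases lt_or_ge (P'.ord t) 0 with h | h
              · exact P'.ge_mono (hD2 P' h) (by omega)
              · exact hD1 P' h)
            exact ⟨C c, by rw [aeval_C]; exact hcc⟩
          · refine ih (N - m) (by omega) (D y) hD1 fun P' hP' => ?_
            exact P'.ge_mono (hD2 P' hP') (by omega)
        obtain ⟨q1, hq1⟩ := hq1
        have h0 : derivative^[p - 1] q1 = 0 := by
          apply hinj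
          rw [← TACAux.iter_aeval D hDt, ← hq1, ← Function.iterate_succ_apply]
          have : (p - 1).succ = p := by omega
          rw [this]
          exact hDp y
        obtain ⟨q, hq, hq0, hqd⟩ := TACAux.integrate hp hk q1 h0
        have hqinf : ∀ P' : Place k L, P'.ord t < 0 → P'.Ge (aeval t q) (-(N : ℤ)) := by
          intro P' hP'
          by_cases h1 : q = 0
          · exact Or.inl (by rw [h1, map_zero])
          have h2 : q1 ≠ 0 := fun h => h1 (hq0 h)
          obtain ⟨-, h4⟩ := TACAux.ord_poly hP' ht0 _ q rfl h1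
          obtain ⟨h5, h6⟩ := TACAux.ord_poly hP' ht0 _ q1 rfl h2
          have h7 := hD2 P' hP'
          rw [hq1] at h7
          have h8 := h7.resolve_left h5
          rw [h6, hordt P' hP'] at h8
          refine Or.inr ?_
          rw [h4, hordt P' hP']
          have h9 : (q.natDegree : ℤ) ≤ q1.natDegree + 1 := by exact_mod_cast hqd
          have h10 : (0 : ℤ) < m := by exact_mod_cast hm0
          nlinarith
        obtain ⟨w, hw⟩ := hDker (y - aeval t q) (by
          rw [map_sub, Derivation.map_aeval, hDt, hq, hq1, smul_eq_mul, mul_one, sub_self])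
        have hw1 : Reg k t w := by
          intro P' hP'
          by_cases hw0 : w = 0
          · exact Or.inl hw0
          · have h1 : P'.Ge (y - aeval t q) 0 := P'.ge_sub (hy P' hP') (TACAux.ge_poly P' t hP' q)
            rw [hw] at h1
            have h2 := h1.resolve_left (pow_ne_zero p hw0)
            rw [P'.ord_pow hw0] at h2
            refine Or.inr ?_
            by_contra h3
            rw [not_le] at h3
            have : (0 : ℤ) < p := by exact_mod_cast hp.pos
            nlinarith
        obtain ⟨q2, hq2⟩ := ih (N / p) (Nat.div_lt_self hN hp2) w hw1 (by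
          intro P' hP'
          by_cases hw0 : w = 0
          · exact Or.inl hw0
          · have h1 : P'.Ge (y - aeval t q) (-(N : ℤ)) := P'.ge_sub (hinf P' hP') (hqinf P' hP')
            rw [hw] at h1
            have h2 := h1.resolve_left (pow_ne_zero p hw0)
            rw [P'.ord_pow hw0] at h2
            refine Or.inr ?_
            have h3 : (0 : ℤ) < p := by exact_mod_cast hp.pos
            have h4 : -P'.ord w ≤ (N : ℤ) / (p : ℤ) := Int.le_ediv_of_mul_le h3 (by linarith)
            have h5 : (((N / p : ℕ)) : ℤ) = (N : ℤ) / (p : ℤ) := by push_cast; rfl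
            rw [h5]
            linarith)
        refine ⟨q + q2 ^ p, ?_⟩
        rw [map_add, map_pow, ← hq2, ← hw]
        ring
  intro g
  apply hc.inj
  rw [map_one]
  apply AlgEquiv.ext
  intro y
  rw [AlgEquiv.one_apply]
  obtain ⟨q0, hq0, hreg⟩ := hFRC k L G ρ t y hc
  have hq0' : aeval t q0 ≠ 0 := fun h => hq0 (hinj q0 h)
  obtain ⟨b, hb⟩ := (Set.finite_range fun g : G => P.ord (ρ g (aeval t q0 * y))).bddBelow
  obtain ⟨q', hq'⟩ := key (-b).toNat (aeval t q0 * y) hreg (by
    intro P' hP'
    by_cases hz : aeval t q0 * y = 0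
    · exact Or.inl hz
    · obtain ⟨c, h⟩ := htr P' hP'
      refine Or.inr ?_
      rw [h _ hz]
      have h1 : b ≤ P.ord (ρ c (aeval t q0 * y)) := hb ⟨c, rfl⟩
      omega)
  have hfa : ∀ q : k[X], ρ g (aeval t q) = aeval t q := by
    intro q
    have h1 : ρ g (aeval t q) = aeval (ρ g t) q := by
      rw [← Polynomial.aeval_algHom_apply]
    rw [h1, hfix g]
  have h1 : aeval t q0 * ρ g y = aeval t q0 * y := by
    have h2 := congrArg (ρ g) hq'
    rw [map_mul, hfa, hfa, ← hq'] at h2
    exact h2
  exact mul_left_cancel₀ hq0' h1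

end Pool.CND
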